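import Pool.Agent.H717.PR.Stm

/-!
# PR717 NO: from trees to orderings
-/

set_option autoImplicit false

namespace Pool.Agent.H665.PR

open Pool.Agent.NPC Pool.Agent.H622R2 Pool.Agent.V11227.BT
open Pool.Agent.TH667.PCG (LeafTree)
open Pool.Agent.V11227.PC (FP Pat betweenness_of)
open Pool.Agent.H717.PR

theorem base0 (I : Inst) (k x : ℕ) (hk : k ≤ 2) (hx : x ∈ I.1) : ((k, x) : Lb) ∈ base I := by
  unfold base
  simp only [List.mem_append, List.mem_map, Prod.mk.injEq]
  obtain rfl | rfl | rfl : k = 0 ∨ k = 1 ∨ k = 2 := by omega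
  · exact Or.inl ⟨x, hx, rfl, rfl⟩
  · exact Or.inr (Or.inl ⟨x, hx, rfl, rfl⟩)
  · exact Or.inr (Or.inr (Or.inl ⟨x, hx, rfl, rfl⟩))

theorem base3 (I : Inst) (i : ℕ) (hi : i < I.2.length) : ((3, i) : Lb) ∈ base I := by
  unfold base
  simp only [List.mem_append, List.mem_map, List.mem_range, Prod.mk.injEq]
  exact Or.inr (Or.inr (Or.inr (Or.inl ⟨i, hi, by simp, rfl⟩)))

theorem base4 (I : Inst) (i : ℕ) (hi : i < I.2.length) : ((4, i) : Lb) ∈ base I := by
  unfold base
  simp only [List.mem_append, List.mem_map, List.mem_range, Prod.mk.injEq]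
  exact Or.inr (Or.inr (Or.inr (Or.inr ⟨i, hi, by simp, rfl⟩)))

theorem t_no (h1 : S_mem) (h2 : S_fp) (h3 : S_force) : S_no := by
  classical
  rintro I hg ⟨t, dmin, dmax, hd0, hdd, hG⟩
  have hb : ∀ u : Lb, u ∈ base I → ((0, (u, u)) : VL) ∈ vs I := fun u hu =>
    (h1 I _).2 (Or.inl ⟨rfl, rfl, hu⟩)
  obtain ⟨n, hn, hI⟩ := hg.1
  have x0 : (0 : ℕ) ∈ I.1 := by
    rw [hI, List.mem_range]
    omega
  let vx : Lb → {w : VL // w ∈ vs I} := fun u =>
    if h : ((0, (u, u)) : VL) ∈ vs I then ⟨(0, (u, u)), h⟩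
    else ⟨(0, ((0, 0), (0, 0))), hb _ (base0 I 0 0 (by norm_num) x0)⟩
  let d : Lb → Lb → ℝ := fun u v => t.dist (vx u) (vx v)
  have hfp := h2 _ t
  have hd : FP d := ⟨fun x y => hfp.comm _ _, fun x y z u => hfp.fp _ _ _ _⟩
  have hvx : ∀ (u : Lb) (hu : u ∈ base I), vx u = ⟨(0, (u, u)), hb u hu⟩ := fun u hu =>
    dif_pos (hb u hu)
  have kn : ∀ u v : Lb, u ∈ base I → v ∈ base I → u ≠ v → near I u v = true → d u v < dmin := by
    intro u v hu hv huv h
    have h4 := (h3 I t dmin dmax hdd hG u v (hb u hu) (hb v hv) huv).1 h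
    show t.dist (vx u) (vx v) < dmin
    rw [hvx u hu, hvx v hv]
    exact h4
  have kf : ∀ u v : Lb, u ∈ base I → v ∈ base I → u ≠ v → far I u v = true → ¬ d u v < dmin := by
    intro u v hu hv huv h
    have h4 := (h3 I t dmin dmax hdd hG u v (hb u hu) (hb v hv) huv).2 h
    show ¬ t.dist (vx u) (vx v) < dmin
    rw [hvx u hu, hvx v hv]
    exact h4
  have hp : Pat d dmin I.1 (fun x => ((1, x) : Lb)) (fun x => (2, x)) (fun x => (0, x)) := by
    constructor
    · intro x hx y hy hxy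
      exact kn _ _ (base0 I 1 x (by norm_num) hx) (base0 I 1 y (by norm_num) hy)
        (by simpa using hxy) (by simp [near, nearB, hxy])
    · intro x hx y hy hxy
      exact kn _ _ (base0 I 2 x (by norm_num) hx) (base0 I 2 y (by norm_num) hy)
        (by simpa using hxy) (by simp [near, nearB, hxy])
    · intro x hx
      exact kn _ _ (base0 I 1 x (by norm_num) hx) (base0 I 0 x (by norm_num) hx)
        (by simp) (by simp [near, nearB])
    · intro x hx
      exact kn _ _ (base0 I 2 x (by norm_num) hx) (base0 I 0 x (by norm_num) hx)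
        (by simp) (by simp [near, nearB])
    · intro x hx
      exact kf _ _ (base0 I 1 x (by norm_num) hx) (base0 I 2 x (by norm_num) hx)
        (by simp) (by simp [far, farB])
    · intro x hx y hy hxy
      exact kf _ _ (base0 I 0 x (by norm_num) hx) (base0 I 0 y (by norm_num) hy)
        (by simpa using hxy) (by simp [far, farB, hxy])
  refine betweenness_of hd hp (ts := I.2) hg fun s hs => ?_
  obtain ⟨k, hk, rfl⟩ : ∃ k, k < I.2.length ∧ tr I k = s := by
    obtain ⟨k, hk, rfl⟩ := List.getElem_of_mem hs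
    exact ⟨k, hk, by unfold tr; rw [List.getD_eq_getElem _ _ hk]⟩
  obtain ⟨t1, t2, t3, -⟩ := hg.2 _ hs
  refine ⟨⟨(3, k), ?_, ?_, ?_⟩, ⟨(4, k), ?_, ?_, ?_⟩⟩
  · exact kn _ _ (base3 I k hk) (base0 I 0 _ (by norm_num) t1) (by simp) (by simp [near, nearB])
  · exact kn _ _ (base3 I k hk) (base0 I 0 _ (by norm_num) t2) (by simp) (by simp [near, nearB])
  · exact kf _ _ (base3 I k hk) (base0 I 0 _ (by norm_num) t3) (by simp) (by simp [far, farB])
  · exact kn _ _ (base4 I k hk) (base0 I 0 _ (by norm_num) t2) (by simp) (by simp [near, nearB])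
  · exact kn _ _ (base4 I k hk) (base0 I 0 _ (by norm_num) t3) (by simp) (by simp [near, nearB])
  · exact kf _ _ (base4 I k hk) (base0 I 0 _ (by norm_num) t1) (by simp) (by simp [far, farB])

end Pool.Agent.H665.PR
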